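import Pool.Agent.LKT.Stmts
import Mathlib.Geometry.Euclidean.Angle.Unoriented.TriangleInequality

set_option autoImplicit false

namespace Pool.Agent.LKT.H67

open Pool.Agent.LKT Pool.Agent.LCK
open scoped BigOperators RealInnerProductSpace

theorem sum_norm_le (e e' : E3) (he : ‖e‖ = 1) (he' : ‖e'‖ = 1) : ‖e + e'‖ ≤ 2 := by
  have := norm_add_le e e'
  rw [he, he'] at this
  linarith

theorem opp (e e' : E3) (he : ‖e‖ = 1) (he' : ‖e'‖ = 1) (a c : ℝ) (ha : 0 < a) (hc : 0 < c)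
    (h : a • e + c • e' = 0) : e' = -e := by
  have h1 : a • e = -(c • e') := eq_neg_of_add_eq_zero_left h
  have h2 : a = c := by
    have := congrArg norm h1
    rw [norm_neg, norm_smul, norm_smul, he, he', Real.norm_of_nonneg ha.le, Real.norm_of_nonneg hc.le] at this
    linarith
  rw [← h2, ← smul_neg] at h1
  have h3 := smul_right_injective E3 ha.ne' h1
  rw [h3, neg_neg]

theorem ang (e e' : E3) (he : ‖e‖ = 1) (he' : ‖e'‖ = 1) (a c : ℝ) (ha : 0 < a) (hc : 0 < c)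
    (hp : a • e + c • e' ≠ 0) (hf : e + e' ≠ 0) :
    InnerProductGeometry.angle (a • e + c • e') (e + e') ≤ Real.arccos (‖e + e'‖ / 2) := by
  unfold InnerProductGeometry.angle
  apply Real.antitone_arccos
  have hpn : 0 < ‖a • e + c • e'‖ := norm_pos_iff.2 hp
  have hfn : 0 < ‖e + e'‖ := norm_pos_iff.2 hf
  rw [le_div_iff₀ (mul_pos hpn hfn)]
  have h1 : ‖e + e'‖ ^ 2 = 2 + 2 * ⟪e, e'⟫ := by
    rw [norm_add_sq_real, he, he']
    ring
  have h2 : ⟪a • e + c • e', e + e'⟫ = (a + c) * (‖e + e'‖ ^ 2 / 2) := by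
    rw [h1, inner_add_left, inner_add_right, inner_add_right, real_inner_smul_left, real_inner_smul_left,
      real_inner_smul_left, real_inner_smul_left, real_inner_self_eq_norm_sq, real_inner_self_eq_norm_sq,
      real_inner_comm e e', he, he']
    ring
  have h3 : ‖a • e + c • e'‖ ≤ a + c := by
    have := norm_add_le (a • e) (c • e')
    rw [norm_smul, norm_smul, he, he', Real.norm_of_nonneg ha.le, Real.norm_of_nonneg hc.le] at this
    linarith
  rw [h2]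
  have h4 : 0 ≤ ‖e + e'‖ ^ 2 / 2 := by positivity
  calc ‖e + e'‖ / 2 * (‖a • e + c • e'‖ * ‖e + e'‖)
      = ‖a • e + c • e'‖ * (‖e + e'‖ ^ 2 / 2) := by ring
    _ ≤ (a + c) * (‖e + e'‖ ^ 2 / 2) := mul_le_mul_of_nonneg_right h3 h4

theorem qua : QuaStmt := by
  intro e1 e2 e3 e4 a b c d h1 h2 h3 h4 ha hb hc hd hp
  have hfg : e1 - e2 + e3 - e4 = (e1 + e3) - (e2 + e4) := by abel
  rw [hfg]
  by_cases hp0 : a • e1 + c • e3 = 0
  · have k1 := opp e1 e3 h1 h3 a c ha hc hp0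
    have k2 := opp e2 e4 h2 h4 b d hb hd (by rw [← hp]; exact hp0)
    rw [k1, k2]
    simp
  by_cases hf : e1 + e3 = 0
  · rw [hf, zero_sub, norm_neg]
    exact sum_norm_le e2 e4 h2 h4
  by_cases hg : e2 + e4 = 0
  · rw [hg, sub_zero]
    exact sum_norm_le e1 e3 h1 h3
  have hq0 : b • e2 + d • e4 ≠ 0 := by
    rw [← hp]
    exact hp0
  have a1 := ang e1 e3 h1 h3 a c ha hc hp0 hf
  have a2 := ang e2 e4 h2 h4 b d hb hd hq0 hg
  rw [← hp] at a2
  have b1 := sum_norm_le e1 e3 h1 h3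
  have b2 := sum_norm_le e2 e4 h2 h4
  obtain ⟨f, hfe⟩ : ∃ f, f = e1 + e3 := ⟨_, rfl⟩
  obtain ⟨g, hge⟩ : ∃ g, g = e2 + e4 := ⟨_, rfl⟩
  obtain ⟨p, hpe⟩ : ∃ p, p = a • e1 + c • e3 := ⟨_, rfl⟩
  rw [← hfe] at a1 b1 hf ⊢
  rw [← hge] at a2 b2 hg ⊢
  rw [← hpe] at a1 a2
  have a1' : InnerProductGeometry.angle f p ≤ Real.arccos (‖f‖ / 2) := by
    rw [InnerProductGeometry.angle_comm]
    exact a1
  have tri := InnerProductGeometry.angle_le_angle_add_angle f p g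
  have hfn := norm_nonneg f
  have hgn := norm_nonneg g
  have hA : Real.arccos (‖f‖ / 2) ≤ Real.pi / 2 := Real.arccos_le_pi_div_two.2 (by positivity)
  have hB : Real.arccos (‖g‖ / 2) ≤ Real.pi / 2 := Real.arccos_le_pi_div_two.2 (by positivity)
  have cA : Real.cos (Real.arccos (‖f‖ / 2)) = ‖f‖ / 2 := Real.cos_arccos (by linarith) (by linarith)
  have cB : Real.cos (Real.arccos (‖g‖ / 2)) = ‖g‖ / 2 := Real.cos_arccos (by linarith) (by linarith)
  obtain ⟨A, hAe⟩ : ∃ A, A = Real.arccos (‖f‖ / 2) := ⟨_, rfl⟩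
  obtain ⟨B, hBe⟩ : ∃ B, B = Real.arccos (‖g‖ / 2) := ⟨_, rfl⟩
  rw [← hAe] at a1' hA cA
  rw [← hBe] at a2 hB cB
  have hle : InnerProductGeometry.angle f g ≤ A + B := by linarith
  have hcos : Real.cos (A + B) ≤ Real.cos (InnerProductGeometry.angle f g) :=
    Real.cos_le_cos_of_nonneg_of_le_pi (InnerProductGeometry.angle_nonneg _ _) (by linarith) hle
  have hin : ⟪f, g⟫ = ‖f‖ * ‖g‖ * Real.cos (InnerProductGeometry.angle f g) := by
    rw [← InnerProductGeometry.cos_angle_mul_norm_mul_norm]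
    ring
  have hin2 : ‖f‖ * ‖g‖ * Real.cos (A + B) ≤ ⟪f, g⟫ := by
    rw [hin]
    exact mul_le_mul_of_nonneg_left hcos (mul_nonneg hfn hgn)
  have hsq : ‖f - g‖ ^ 2 = ‖f‖ ^ 2 - 2 * ⟪f, g⟫ + ‖g‖ ^ 2 := norm_sub_sq_real f g
  have e1' : ‖f‖ = 2 * Real.cos A := by linarith
  have e2' : ‖g‖ = 2 * Real.cos B := by linarith
  have s1 := Real.sin_sq_add_cos_sq A
  have s2 := Real.sin_sq_add_cos_sq B
  have hfin : ‖f - g‖ ^ 2 ≤ 4 := by
    rw [hsq]
    have hid : 4 - (‖f‖ ^ 2 - 2 * (‖f‖ * ‖g‖ * Real.cos (A + B)) + ‖g‖ ^ 2) = 4 * Real.cos (A + B) ^ 2 := by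
      rw [e1', e2', Real.cos_add]
      have s1' : Real.sin A ^ 2 = 1 - Real.cos A ^ 2 := by linarith
      have s2' : Real.sin B ^ 2 = 1 - Real.cos B ^ 2 := by linarith
      have : (Real.cos A * Real.cos B - Real.sin A * Real.sin B) ^ 2 =
          Real.cos A ^ 2 * Real.cos B ^ 2 - 2 * Real.cos A * Real.cos B * Real.sin A * Real.sin B
            + Real.sin A ^ 2 * Real.sin B ^ 2 := by ring
      rw [this, s1', s2']
      ring
    have : 0 ≤ 4 * Real.cos (A + B) ^ 2 := by positivity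
    linarith
  by_contra hcon
  have hcon' : 2 < ‖f - g‖ := not_le.1 hcon
  nlinarith

end Pool.Agent.LKT.H67
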